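import Pool.Agent.H5.TT.Stm

set_option autoImplicit false

open MeasureTheory Real Set

namespace H19.TT

open H5.TT

/-- weight -/
noncomputable def cc (t : ℝ) : ℝ :=
  π ^ (-(1 / 2) : ℝ) * t ^ (-(1 / 2) : ℝ) * (4 * t / π) ^ (3 / 2 : ℝ)

noncomputable def ph (z : ℝ × R3) (x : R3) : ℝ :=
  √(cc z.1) * exp (-(2 * z.1) * ‖x - z.2‖ ^ 2)

noncomputable def nu : Measure (ℝ × R3) :=
  ((volume : Measure ℝ).restrict (Ioi 0)).prod (volume : Measure R3)

instance : SFinite nu := by unfold nu; infer_instance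

theorem cc_pos {t : ℝ} (ht : 0 < t) : 0 < cc t := by
  unfold cc
  have := pi_pos
  positivity

theorem para (x y w : R3) (t : ℝ) :
    exp (-(2 * t) * ‖x - w‖ ^ 2) * exp (-(2 * t) * ‖y - w‖ ^ 2) =
      exp (-(‖x - y‖ ^ 2 * t)) * exp (-(4 * t) * ‖w - (1 / 2 : ℝ) • (x + y)‖ ^ 2) := by
  rw [← exp_add, ← exp_add]
  congr 1
  have h := parallelogram_law_with_norm ℝ (x - w) (y - w)
  have e1 : (x - w) + (y - w) = (-2 : ℝ) • (w - (1 / 2 : ℝ) • (x + y)) := by
    rw [smul_sub, smul_smul]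
    norm_num
    rw [← sub_eq_zero]
    have : (2 : ℝ) • w = w + w := two_smul ℝ w
    rw [this]
    abel
  have e2 : (x - w) - (y - w) = x - y := by abel
  have e3 : ‖(-2 : ℝ) • (w - (1 / 2 : ℝ) • (x + y))‖ = 2 * ‖w - (1 / 2 : ℝ) • (x + y)‖ := by
    rw [norm_smul]; norm_num
  rw [e1, e2, e3] at h
  generalize ‖w - (1 / 2 : ℝ) • (x + y)‖ = M at h ⊢
  generalize ‖x - w‖ = a at h ⊢
  generalize ‖y - w‖ = b at h ⊢
  generalize ‖x - y‖ = r at h ⊢
  linear_combination (t : ℝ) * h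

theorem gauss_int (b : ℝ) (hb : 0 < b) (m : R3) :
    Integrable (fun w : R3 => exp (-b * ‖w - m‖ ^ 2)) ∧
      ∫ w : R3, exp (-b * ‖w - m‖ ^ 2) = (π / b) ^ (3 / 2 : ℝ) := by
  have h1 : ∫ w : R3, exp (-b * ‖w - m‖ ^ 2) = (π / b) ^ (3 / 2 : ℝ) := by
    rw [integral_sub_right_eq_self (fun w : R3 => exp (-b * ‖w‖ ^ 2)) m,
      GaussianFourier.integral_rexp_neg_mul_sq_norm hb]
    congr 2
    simp
  refine ⟨Integrable.of_integral_ne_zero ?_, h1⟩
  rw [h1]
  have := pi_pos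
  positivity

theorem ph_mul {t : ℝ} (ht : 0 < t) (x y w : R3) :
    ph (t, w) x * ph (t, w) y = cc t * exp (-(‖x - y‖ ^ 2 * t)) *
      exp (-(4 * t) * ‖w - (1 / 2 : ℝ) • (x + y)‖ ^ 2) := by
  unfold ph
  have h := para x y w t
  have h2 := mul_self_sqrt (cc_pos ht).le
  calc _ = (√(cc t) * √(cc t)) *
        (exp (-(2 * t) * ‖x - w‖ ^ 2) * exp (-(2 * t) * ‖y - w‖ ^ 2)) := by ring
    _ = _ := by rw [h2, h]; ring

theorem inner_int {t : ℝ} (ht : 0 < t) (x y : R3) :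
    Integrable (fun w : R3 => ph (t, w) x * ph (t, w) y) ∧
      ∫ w : R3, ph (t, w) x * ph (t, w) y =
        π ^ (-(1 / 2) : ℝ) * (t ^ (1 / 2 - 1 : ℝ) * exp (-(‖x - y‖ ^ 2 * t))) := by
  simp only [ph_mul ht]
  obtain ⟨h1, h2⟩ := gauss_int (4 * t) (by positivity) ((1 / 2 : ℝ) • (x + y))
  refine ⟨h1.const_mul _, ?_⟩
  rw [integral_const_mul, h2]
  unfold cc
  have hpi := pi_pos
  have e : (4 * t / π) ^ (3 / 2 : ℝ) * (π / (4 * t)) ^ (3 / 2 : ℝ) = 1 := by
    rw [← mul_rpow (by positivity) (by positivity)]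
    have : 4 * t / π * (π / (4 * t)) = 1 := by field_simp
    rw [this, one_rpow]
  have e2 : (1 / 2 - 1 : ℝ) = -(1 / 2) := by norm_num
  rw [e2]
  linear_combination (π ^ (-(1 / 2) : ℝ) * t ^ (-(1 / 2) : ℝ) * exp (-(‖x - y‖ ^ 2 * t))) * e

theorem ph_meas : Measurable (fun q : (ℝ × R3) × R3 => ph q.1 q.2) := by
  unfold ph cc
  fun_prop

theorem kernel {x y : R3} (hxy : x ≠ y) :
    Integrable (fun z : ℝ × R3 => ph z x * ph z y) nu ∧
      ∫ z, ph z x * ph z y ∂nu = 1 / ‖x - y‖ := by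
  have hr : 0 < ‖x - y‖ := norm_pos_iff.2 (sub_ne_zero.2 hxy)
  have hr2 : 0 < ‖x - y‖ ^ 2 := by positivity
  have hpi := pi_pos
  have hG := Real.integral_rpow_mul_exp_neg_mul_Ioi (a := 1 / 2) (by norm_num) hr2
  have hval : (1 / ‖x - y‖ ^ 2) ^ (1 / 2 : ℝ) * Gamma (1 / 2) = √π / ‖x - y‖ := by
    rw [Real.Gamma_one_half_eq, ← sqrt_eq_rpow, sqrt_div zero_le_one, sqrt_sq hr.le, sqrt_one]
    ring
  rw [hval] at hG
  have hGi : Integrable (fun t : ℝ => t ^ (1 / 2 - 1 : ℝ) * exp (-(‖x - y‖ ^ 2 * t)))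
      ((volume : Measure ℝ).restrict (Ioi 0)) := by
    apply Integrable.of_integral_ne_zero
    rw [hG]
    positivity
  have hpos : ∀ᵐ t ∂((volume : Measure ℝ).restrict (Ioi 0)), 0 < t :=
    ae_restrict_mem measurableSet_Ioi
  have hmeas : AEStronglyMeasurable (fun z : ℝ × R3 => ph z x * ph z y) nu := by
    apply Measurable.aestronglyMeasurable
    exact (ph_meas.comp (measurable_id.prodMk measurable_const)).mul
      (ph_meas.comp (measurable_id.prodMk measurable_const))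
  have hint : Integrable (fun z : ℝ × R3 => ph z x * ph z y) nu := by
    unfold nu at hmeas ⊢
    rw [integrable_prod_iff hmeas]
    constructor
    · filter_upwards [hpos] with t ht
      exact (inner_int ht x y).1
    · refine (hGi.const_mul (π ^ (-(1 / 2) : ℝ))).congr ?_
      filter_upwards [hpos] with t ht
      rw [← (inner_int ht x y).2]
      refine integral_congr_ae (ae_of_all _ fun w => ?_)
      have : 0 ≤ ph (t, w) x * ph (t, w) y := by
        unfold ph; positivity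
      exact (Real.norm_of_nonneg this).symm
  refine ⟨hint, ?_⟩
  have h1 : ∫ z, ph z x * ph z y ∂nu = ∫ t in Ioi (0 : ℝ), ∫ w, ph (t, w) x * ph (t, w) y := by
    unfold nu at hint ⊢
    exact integral_prod _ hint
  rw [h1]
  have h2 : ∫ t in Ioi (0 : ℝ), ∫ w, ph (t, w) x * ph (t, w) y =
      ∫ t in Ioi (0 : ℝ), π ^ (-(1 / 2) : ℝ) * (t ^ (1 / 2 - 1 : ℝ) * exp (-(‖x - y‖ ^ 2 * t))) :=
    integral_congr_ae (by
      filter_upwards [hpos] with t ht
      exact (inner_int ht x y).2)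
  rw [h2, integral_const_mul, hG]
  have e : π ^ (-(1 / 2) : ℝ) * √π = 1 := by
    rw [sqrt_eq_rpow, ← rpow_add hpi]; norm_num
  rw [mul_div_assoc', e]

theorem diag_ae : ∀ᵐ p : R3 × R3, p.1 ≠ p.2 := by
  rw [ae_iff]
  simp only [ne_eq, not_not]
  rw [Measure.volume_eq_prod, Measure.measure_prod_null
    (measurableSet_eq_fun measurable_fst measurable_snd)]
  refine ae_of_all _ fun x => ?_
  have : Prod.mk x ⁻¹' {p : R3 × R3 | p.1 = p.2} = {x} := by
    ext y
    simp [eq_comm]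
  show volume (Prod.mk x ⁻¹' {p : R3 × R3 | p.1 = p.2}) = 0
  rw [this]
  exact measure_singleton x

theorem dd_nonneg (f : R3 → ℝ) (hf : Measurable f)
    (hint : Integrable (fun p : R3 × R3 => f p.1 * f p.2 / ‖p.1 - p.2‖)) : 0 ≤ dd f f := by
  have hmeas : AEStronglyMeasurable (fun q : (R3 × R3) × (ℝ × R3) =>
      (f q.1.1 * f q.1.2) * (ph q.2 q.1.1 * ph q.2 q.1.2))
      ((volume : Measure (R3 × R3)).prod nu) := by
    apply Measurable.aestronglyMeasurable
    have h1 : Measurable (fun q : (R3 × R3) × (ℝ × R3) => ph q.2 q.1.1) :=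
      ph_meas.comp (measurable_snd.prodMk (measurable_fst.comp measurable_fst))
    have h2 : Measurable (fun q : (R3 × R3) × (ℝ × R3) => ph q.2 q.1.2) :=
      ph_meas.comp (measurable_snd.prodMk (measurable_snd.comp measurable_fst))
    have h3 : Measurable (fun q : (R3 × R3) × (ℝ × R3) => f q.1.1) :=
      hf.comp (measurable_fst.comp measurable_fst)
    have h4 : Measurable (fun q : (R3 × R3) × (ℝ × R3) => f q.1.2) :=
      hf.comp (measurable_snd.comp measurable_fst)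
    exact (h3.mul h4).mul (h1.mul h2)
  have hI : Integrable (fun q : (R3 × R3) × (ℝ × R3) =>
      (f q.1.1 * f q.1.2) * (ph q.2 q.1.1 * ph q.2 q.1.2))
      ((volume : Measure (R3 × R3)).prod nu) := by
    rw [integrable_prod_iff hmeas]
    constructor
    · filter_upwards [diag_ae] with p hp
      exact (kernel hp).1.const_mul _
    · refine hint.norm.congr ?_
      filter_upwards [diag_ae] with p hp
      have h1 : ∀ z : ℝ × R3, ‖(f p.1 * f p.2) * (ph z p.1 * ph z p.2)‖ =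
          |f p.1 * f p.2| * (ph z p.1 * ph z p.2) := by
        intro z
        rw [norm_mul, Real.norm_eq_abs, Real.norm_of_nonneg]
        unfold ph
        positivity
      simp only [h1]
      rw [integral_const_mul, (kernel hp).2, Real.norm_eq_abs, abs_div, abs_norm]
      ring
  have h1 : dd f f = ∫ p : R3 × R3, ∫ z, (f p.1 * f p.2) * (ph z p.1 * ph z p.2) ∂nu := by
    unfold dd
    refine integral_congr_ae ?_
    filter_upwards [diag_ae] with p hp
    rw [integral_const_mul, (kernel hp).2]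
    ring
  rw [h1, integral_integral_swap hI]
  refine integral_nonneg fun z => ?_
  have h2 : ∫ p : R3 × R3, (f p.1 * f p.2) * (ph z p.1 * ph z p.2) =
      (∫ x, f x * ph z x) * (∫ x, f x * ph z x) := by
    rw [← integral_prod_mul (fun x => f x * ph z x) (fun x => f x * ph z x),
      ← Measure.volume_eq_prod]
    refine integral_congr_ae (ae_of_all _ fun p => ?_)
    show (f p.1 * f p.2) * (ph z p.1 * ph z p.2) = (f p.1 * ph z p.1) * (f p.2 * ph z p.2)
    ring
  show 0 ≤ ∫ p : R3 × R3, (f p.1 * f p.2) * (ph z p.1 * ph z p.2)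
  rw [h2]
  exact mul_self_nonneg _

theorem t_COU (hDFI : S_DFI) : S_COU := by
  intro lam mu σ τ hσ hτ
  have h11 := hDFI lam lam σ σ hσ hσ
  have h12 := hDFI lam mu σ τ hσ hτ
  have h21 := hDFI mu lam τ σ hτ hσ
  have h22 := hDFI mu mu τ τ hτ hτ
  have hF : (fun p : R3 × R3 => (σ p.1 - τ p.1) * (σ p.2 - τ p.2) / ‖p.1 - p.2‖) =
      fun p => ((σ p.1 * σ p.2 / ‖p.1 - p.2‖ - σ p.1 * τ p.2 / ‖p.1 - p.2‖) -
        (τ p.1 * σ p.2 / ‖p.1 - p.2‖)) + τ p.1 * τ p.2 / ‖p.1 - p.2‖ := by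
    funext p; ring
  have hint : Integrable (fun p : R3 × R3 =>
      (σ p.1 - τ p.1) * (σ p.2 - τ p.2) / ‖p.1 - p.2‖) := by
    rw [hF]
    exact ((h11.sub h12).sub h21).add h22
  have h0 := dd_nonneg (fun x => σ x - τ x) (hσ.1.sub hτ.1) hint
  have hsym : dd τ σ = dd σ τ := by
    unfold dd
    rw [Measure.volume_eq_prod, ← integral_prod_swap]
    refine integral_congr_ae (ae_of_all _ fun p => ?_)
    show τ p.2 * σ p.1 / ‖p.2 - p.1‖ = σ p.1 * τ p.2 / ‖p.1 - p.2‖
    rw [norm_sub_rev, mul_comm]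
  have hexp : dd (fun x => σ x - τ x) (fun x => σ x - τ x) =
      dd σ σ - dd σ τ - dd τ σ + dd τ τ := by
    have i1 : Integrable (fun p : R3 × R3 => σ p.1 * σ p.2 / ‖p.1 - p.2‖ -
        σ p.1 * τ p.2 / ‖p.1 - p.2‖) := h11.sub h12
    have i2 : Integrable (fun p : R3 × R3 => σ p.1 * σ p.2 / ‖p.1 - p.2‖ -
        σ p.1 * τ p.2 / ‖p.1 - p.2‖ - τ p.1 * σ p.2 / ‖p.1 - p.2‖) := i1.sub h21
    unfold dd
    rw [hF, integral_add i2 h22, integral_sub i1 h21, integral_sub h11 h12]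
  rw [hexp, hsym] at h0
  linarith

end H19.TT
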